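import Pool.Agent.Helper83.OP.Defs
import Pool.Agent.Helper95.UP.Defs

/-!
# HM: m-planar-critical graphs by subdivision (MP_0dbcb7_co) — definitions

The `m`-subdivision of a graph on `V` has the vertices `V ⊕ (Sym2 V × Fin m)`; the edge `f` is replaced by the path
`pt m f 0, ..., pt m f m`. Vertices `Sum.inr (f, t)` with `f` not an edge or `t = 0` are isolated.
-/

set_option autoImplicit false

open Set
open Pool.Agent.Helper83.OP Pool.Agent.Helper95.UP

namespace Pool.Agent.Helper23.HM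

/-- the first end of `f` -/
noncomputable def ea {V : Type} (f : Sym2 V) : V := (Quot.out f).1

/-- the second end of `f` -/
noncomputable def eb {V : Type} (f : Sym2 V) : V := (Quot.out f).2

/-- the vertices of the `m`-subdivision -/
abbrev SV (V : Type) (m : ℕ) : Type := V ⊕ (Sym2 V × Fin m)

/-- the `t`-th vertex of the subdivided edge `f` -/
noncomputable def pt {V : Type} (m : ℕ) (f : Sym2 V) (t : ℕ) : SV V m :=
  if t = 0 then Sum.inl (ea f) else if h : t < m then Sum.inr (f, ⟨t, h⟩) else Sum.inl (eb f)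

/-- the edge number `t` of the subdivided edge `f` -/
noncomputable def pe {V : Type} (m : ℕ) (f : Sym2 V) (t : ℕ) : Sym2 (SV V m) :=
  s(pt m f t, pt m f (t + 1))

theorem eab {V : Type} (f : Sym2 V) : s(ea f, eb f) = f := Quot.out_eq f

theorem ea_ne_eb {V : Type} {f : Sym2 V} (h : ¬ f.IsDiag) : ea f ≠ eb f := by
  intro h1
  apply h
  rw [← eab f, h1]
  exact Sym2.mk_isDiag_iff.2 rfl

theorem pt_zero {V : Type} (m : ℕ) (f : Sym2 V) : pt m f 0 = Sum.inl (ea f) := by simp [pt]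

theorem pt_m {V : Type} {m : ℕ} (hm : 1 ≤ m) (f : Sym2 V) : pt m f m = Sum.inl (eb f) := by
  unfold pt
  rw [if_neg (by omega), dif_neg (by omega)]

theorem pt_inner {V : Type} {m : ℕ} (f : Sym2 V) {t : ℕ} (h0 : 0 < t) (h : t < m) :
    pt m f t = Sum.inr (f, ⟨t, h⟩) := by
  unfold pt
  rw [if_neg (by omega), dif_pos h]

/-- the points `pt m f t`, `t ≤ m`, are different -/
theorem pt_inj {V : Type} {m : ℕ} (hm : 1 ≤ m) {f : Sym2 V} (hf : ¬ f.IsDiag) {s t : ℕ} (hs : s ≤ m)
    (ht : t ≤ m) (h : pt m f s = pt m f t) : s = t := by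
  have hne := ea_ne_eb hf
  rcases Nat.eq_zero_or_pos s with h0 | h0
  · subst h0
    rcases Nat.eq_zero_or_pos t with h1 | h1
    · exact h1.symm
    · rcases lt_or_eq_of_le ht with h2 | h2
      · rw [pt_zero, pt_inner f h1 h2] at h
        exact absurd h (by simp)
      · subst h2
        rw [pt_zero, pt_m hm] at h
        exact absurd (Sum.inl_injective h) hne
  rcases lt_or_eq_of_le hs with h3 | h3
  · rcases Nat.eq_zero_or_pos t with h1 | h1
    · subst h1
      rw [pt_zero, pt_inner f h0 h3] at h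
      exact absurd h (by simp)
    · rcases lt_or_eq_of_le ht with h2 | h2
      · rw [pt_inner f h0 h3, pt_inner f h1 h2] at h
        have := (Prod.ext_iff.1 (Sum.inr_injective h)).2
        exact congrArg Fin.val this
      · subst h2
        rw [pt_m hm, pt_inner f h0 h3] at h
        exact absurd h (by simp)
  · subst h3
    rcases Nat.eq_zero_or_pos t with h1 | h1
    · subst h1
      rw [pt_zero, pt_m hm] at h
      exact absurd (Sum.inl_injective h).symm hne
    · rcases lt_or_eq_of_le ht with h2 | h2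
      · rw [pt_m hm, pt_inner f h1 h2] at h
        exact absurd h (by simp)
      · exact h2.symm

/-- an inner point determines its edge and its number -/
theorem pt_eq_inr {V : Type} {m : ℕ} {f : Sym2 V} {t : ℕ} {q : Sym2 V × Fin m}
    (h : pt m f t = Sum.inr q) : 0 < t ∧ t < m ∧ q.1 = f ∧ (q.2 : ℕ) = t := by
  unfold pt at h
  split_ifs at h with h1 h2
  have := Sum.inr_injective h
  subst this
  exact ⟨by omega, h2, rfl, rfl⟩

/-- a point which is a vertex of `V` is an end -/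
theorem pt_eq_inl {V : Type} {m : ℕ} {f : Sym2 V} {t : ℕ} (ht : t ≤ m) {w : V}
    (h : pt m f t = Sum.inl w) : (t = 0 ∧ w = ea f) ∨ (t = m ∧ w = eb f) := by
  unfold pt at h
  split_ifs at h with h1 h2
  · exact Or.inl ⟨h1, (Sum.inl_injective h).symm⟩
  · exact Or.inr ⟨by omega, (Sum.inl_injective h).symm⟩

/-- an edge of the subdivision determines its edge and its number -/
theorem pe_inj {V : Type} {m : ℕ} {f f' : Sym2 V} (hf : ¬ f.IsDiag) (hf' : ¬ f'.IsDiag) {t t' : ℕ}
    (ht : t < m) (ht' : t' < m) (h : pe m f t = pe m f' t') : f = f' ∧ t = t' := by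
  have hm : 1 ≤ m := by omega
  have key : f = f' := by
    by_contra hne
    have hno : ∀ s s', s ≤ m → s' ≤ m → pt m f s = pt m f' s' → (s = 0 ∨ s = m) := by
      intro s s' hs hs' h1
      by_contra hcon
      push Not at hcon
      rw [pt_inner f (Nat.pos_of_ne_zero hcon.1) (lt_of_le_of_ne hs hcon.2)] at h1
      exact hne (pt_eq_inr h1.symm).2.2.1
    rcases Sym2.eq_iff.1 h with ⟨h1, h2⟩ | ⟨h1, h2⟩
    · have h3 := hno t t' (by omega) (by omega) h1
      have h4 := hno (t + 1) (t' + 1) (by omega) (by omega) h2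
      have h5 := hno
      have h3' : t' = 0 ∨ t' = m := by
        by_contra hcon
        push Not at hcon
        rw [pt_inner f' (Nat.pos_of_ne_zero hcon.1) (lt_of_le_of_ne (by omega) hcon.2)] at h1
        exact hne (pt_eq_inr h1).2.2.1.symm
      have h6 : t = 0 := by omega
      have h7 : t' = 0 := by omega
      have h8 : m = 1 := by omega
      subst h6; subst h7; subst h8
      rw [pt_zero, pt_zero] at h1
      rw [Nat.zero_add, pt_m le_rfl, pt_m le_rfl] at h2
      apply hne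
      rw [← eab f, ← eab f', Sum.inl_injective h1, Sum.inl_injective h2]
    · have h3 := hno t (t' + 1) (by omega) (by omega) h1
      have h4 := hno (t + 1) t' (by omega) (by omega) h2
      have h3' : t' = 0 ∨ t' = m := by
        by_contra hcon
        push Not at hcon
        rw [pt_inner f' (Nat.pos_of_ne_zero hcon.1) (lt_of_le_of_ne (by omega) hcon.2)] at h2
        exact hne (pt_eq_inr h2).2.2.1.symm
      have h6 : t = 0 := by omega
      have h7 : t' = 0 := by omega
      have h8 : m = 1 := by omega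
      subst h6; subst h7; subst h8
      rw [pt_zero, Nat.zero_add, pt_m le_rfl] at h1
      rw [pt_zero, Nat.zero_add, pt_m le_rfl] at h2
      apply hne
      rw [← eab f, ← eab f', Sum.inl_injective h1, Sum.inl_injective h2]
      exact Sym2.eq_swap
  refine ⟨key, ?_⟩
  subst key
  rcases Sym2.eq_iff.1 h with ⟨h1, h2⟩ | ⟨h1, h2⟩
  · exact pt_inj hm hf (by omega) (by omega) h1
  · have h3 := pt_inj hm hf (by omega) (by omega) h1
    have h4 := pt_inj hm hf (by omega) (by omega) h2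
    omega

theorem pe_not_diag {V : Type} {m : ℕ} {f : Sym2 V} (hf : ¬ f.IsDiag) {t : ℕ} (ht : t < m) :
    ¬ (pe m f t).IsDiag := by
  unfold pe
  rw [Sym2.mk_isDiag_iff]
  intro h
  have := pt_inj (by omega) hf (by omega) (by omega) h
  omega

/-- the graph of the edges `pe m f t` with `S f t` -/
def SB {V : Type} (m : ℕ) (S : Sym2 V → ℕ → Prop) : SimpleGraph (SV V m) where
  Adj x y := ∃ f t, ¬ f.IsDiag ∧ S f t ∧ t < m ∧ s(x, y) = pe m f t
  symm := ⟨by
    rintro x y ⟨f, t, h1, h2, h3, h4⟩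
    exact ⟨f, t, h1, h2, h3, by rw [Sym2.eq_swap, h4]⟩⟩
  loopless := ⟨by
    rintro x ⟨f, t, h1, h2, h3, h4⟩
    apply pe_not_diag h1 h3
    rw [← h4]
    exact Sym2.mk_isDiag_iff.2 rfl⟩

/-- the `m`-subdivision of `G` -/
def Sd {V : Type} (m : ℕ) (G : SimpleGraph V) : SimpleGraph (SV V m) :=
  SB m (fun f _ => f ∈ G.edgeSet)

theorem SB_edge {V : Type} {m : ℕ} {S : Sym2 V → ℕ → Prop} {e : Sym2 (SV V m)} :
    e ∈ (SB m S).edgeSet ↔ ∃ f t, ¬ f.IsDiag ∧ S f t ∧ t < m ∧ e = pe m f t := by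
  induction e using Sym2.ind with
  | _ x y => exact Iff.rfl

theorem SB_pe {V : Type} {m : ℕ} {S : Sym2 V → ℕ → Prop} {f : Sym2 V} (hf : ¬ f.IsDiag) {t : ℕ}
    (ht : t < m) : pe m f t ∈ (SB m S).edgeSet ↔ S f t := by
  rw [SB_edge]
  constructor
  · rintro ⟨f', t', h1, h2, h3, h4⟩
    obtain ⟨h5, h6⟩ := pe_inj hf h1 ht h3 h4
    rw [h5, h6]
    exact h2
  · intro h
    exact ⟨f, t, hf, h, ht, rfl⟩

theorem not_diag {V : Type} {G : SimpleGraph V} {f : Sym2 V} (hf : f ∈ G.edgeSet) : ¬ f.IsDiag :=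
  G.not_isDiag_of_mem_edgeSet hf

theorem Sd_edge {V : Type} {m : ℕ} {G : SimpleGraph V} {e : Sym2 (SV V m)} :
    e ∈ (Sd m G).edgeSet ↔ ∃ f t, f ∈ G.edgeSet ∧ t < m ∧ e = pe m f t := by
  unfold Sd
  rw [SB_edge]
  constructor
  · rintro ⟨f, t, -, h2, h3, h4⟩
    exact ⟨f, t, h2, h3, h4⟩
  · rintro ⟨f, t, h2, h3, h4⟩
    exact ⟨f, t, not_diag h2, h2, h3, h4⟩

theorem Sd_pe {V : Type} {m : ℕ} {G : SimpleGraph V} {f : Sym2 V} (hf : f ∈ G.edgeSet) {t : ℕ}
    (ht : t < m) : pe m f t ∈ (Sd m G).edgeSet :=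
  Sd_edge.2 ⟨f, t, hf, ht, rfl⟩

theorem Sd_adj {V : Type} {m : ℕ} {G : SimpleGraph V} {f : Sym2 V} (hf : f ∈ G.edgeSet) {t : ℕ}
    (ht : t < m) : (Sd m G).Adj (pt m f t) (pt m f (t + 1)) :=
  Sd_pe hf ht

/-- the neighbours of an inner point -/
theorem SB_nbr_inner {V : Type} {m : ℕ} {S : Sym2 V → ℕ → Prop} {f : Sym2 V} {t : ℕ} (h0 : 0 < t)
    (h1 : t < m) {y : SV V m} (h : (SB m S).Adj (pt m f t) y) :
    (S f t ∧ y = pt m f (t + 1)) ∨ (S f (t - 1) ∧ y = pt m f (t - 1)) := by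
  obtain ⟨f', t', h2, h3, h4, h5⟩ := h
  unfold pe at h5
  rw [pt_inner f h0 h1] at h5
  rcases Sym2.eq_iff.1 h5 with ⟨h6, h7⟩ | ⟨h6, h7⟩
  · obtain ⟨-, -, h8, h9⟩ := pt_eq_inr h6.symm
    simp only at h8 h9
    subst h8; subst h9
    exact Or.inl ⟨h3, h7⟩
  · obtain ⟨-, -, h8, h9⟩ := pt_eq_inr h6.symm
    simp only at h8 h9
    subst h8
    have h10 : t' = t - 1 := by omega
    subst h10
    exact Or.inr ⟨h3, h7⟩

end Pool.Agent.Helper23.HM
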