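import Pool.Agent.Helper23.HM.Defs

/-!
# HM: the threads of the `m`-subdivision
-/

set_option autoImplicit false

open Set
open Pool.Agent.Helper83.OP Pool.Agent.Helper95.UP

namespace Pool.Agent.Helper23.HM

/-- the neighbours of a vertex of `V` in the subdivision -/
theorem Sd_nbr_inl {V : Type} {m : ℕ} {G : SimpleGraph V} {v : V} {y : SV V m}
    (h : (Sd m G).Adj (Sum.inl v) y) : ∃ f ∈ G.edgeSet, 
      (ea f = v ∧ y = pt m f 1) ∨ (eb f = v ∧ y = pt m f (m - 1)) := by
  obtain ⟨f, t, -, h2, h3, h4⟩ := h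
  refine ⟨f, h2, ?_⟩
  unfold pe at h4
  rcases Sym2.eq_iff.1 h4 with ⟨h5, h6⟩ | ⟨h5, h6⟩
  · rcases pt_eq_inl (by omega) h5.symm with ⟨h7, h8⟩ | ⟨h7, h8⟩
    · subst h7
      exact Or.inl ⟨h8.symm, h6⟩
    · omega
  · rcases pt_eq_inl (by omega) h5.symm with ⟨h7, h8⟩ | ⟨h7, h8⟩
    · omega
    · refine Or.inr ⟨h8.symm, ?_⟩
      rw [h6]
      congr 1
      omega

open Classical in
/-- the neighbour of `v` on the thread of the edge `vw` -/
noncomputable def nb {V : Type} (m : ℕ) (v w : V) : SV V m :=
  if ea s(v, w) = v then pt m s(v, w) 1 else pt m s(v, w) (m - 1)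

theorem nb_edge {V : Type} {m : ℕ} (hm : 1 ≤ m) {v w : V} :
    s((Sum.inl v : SV V m), nb m v w) = pe m s(v, w) 0 ∨
      s((Sum.inl v : SV V m), nb m v w) = pe m s(v, w) (m - 1) := by
  unfold nb
  split_ifs with h
  · left
    unfold pe
    rw [pt_zero, h]
  · right
    have h1 : eb s(v, w) = v := by
      rcases Sym2.eq_iff.1 (eab s(v, w)) with ⟨h2, h3⟩ | ⟨h2, h3⟩
      · exact absurd h2 h
      · exact h3
    unfold pe
    rw [show m - 1 + 1 = m by omega, pt_m hm, h1, Sym2.eq_swap]

theorem deg_inl {V : Type} {m : ℕ} (hm : 1 ≤ m) (G : SimpleGraph V) (v : V) :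
    deg (Sd m G) (Sum.inl v) = deg G v := by
  unfold deg
  symm
  refine Set.ncard_congr (fun w _ => nb m v w) ?_ ?_ ?_
  · intro w hw
    have hf : s(v, w) ∈ G.edgeSet := hw
    change s((Sum.inl v : SV V m), nb m v w) ∈ (Sd m G).edgeSet
    rcases nb_edge (m := m) hm (v := v) (w := w) with h | h
    · rw [h]
      exact Sd_pe hf (by omega)
    · rw [h]
      exact Sd_pe hf (by omega)
  · intro w w' hw hw' h
    have hf : ¬ (s(v, w)).IsDiag := not_diag (G := G) hw
    have hf' : ¬ (s(v, w')).IsDiag := not_diag (G := G) hw'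
    have key : s(v, w) = s(v, w') := by
      have e1 := nb_edge (m := m) hm (v := v) (w := w)
      have e2 := nb_edge (m := m) hm (v := v) (w := w')
      rw [← h] at e2
      rcases e1 with e1 | e1 <;> rcases e2 with e2 | e2
      · exact (pe_inj hf hf' (by omega) (by omega) (e1.symm.trans e2)).1
      · exact (pe_inj hf hf' (by omega) (by omega) (e1.symm.trans e2)).1
      · exact (pe_inj hf hf' (by omega) (by omega) (e1.symm.trans e2)).1
      · exact (pe_inj hf hf' (by omega) (by omega) (e1.symm.trans e2)).1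
    rcases Sym2.eq_iff.1 key with ⟨-, h2⟩ | ⟨h1, h2⟩
    · exact h2
    · rw [h2, h1]
  · intro y hy
    obtain ⟨f, hf, h1 | h1⟩ := Sd_nbr_inl hy
    · obtain ⟨h1, h2⟩ := h1
      subst h1
      have e : s(ea f, eb f) = f := eab f
      refine ⟨eb f, ?_, ?_⟩
      · change s(ea f, eb f) ∈ G.edgeSet
        rw [e]
        exact hf
      · unfold nb
        rw [e, if_pos rfl, h2]
    · obtain ⟨h1, h2⟩ := h1
      subst h1
      have e : s(eb f, ea f) = f := by rw [Sym2.eq_swap]; exact eab f
      refine ⟨ea f, ?_, ?_⟩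
      · change s(eb f, ea f) ∈ G.edgeSet
        rw [e]
        exact hf
      · unfold nb
        rw [e, if_neg (ea_ne_eb (not_diag hf)), h2]

theorem deg_inr {V : Type} {m : ℕ} (G : SimpleGraph V) (q : Sym2 V × Fin m) :
    deg (Sd m G) (Sum.inr q) ≤ 2 := by
  unfold deg
  refine le_trans (Set.ncard_le_ncard (t := {pt m q.1 ((q.2 : ℕ) + 1), pt m q.1 ((q.2 : ℕ) - 1)})
    ?_ (Set.toFinite _)) ((Set.ncard_insert_le _ _).trans (by rw [Set.ncard_singleton]))
  intro y hy
  have hy' : (Sd m G).Adj (Sum.inr q) y := hy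
  have h0 : 0 < (q.2 : ℕ) := by
    obtain ⟨f, t, -, -, -, h4⟩ := hy'
    unfold pe at h4
    rcases Sym2.eq_iff.1 h4 with ⟨h5, -⟩ | ⟨h5, -⟩
    · obtain ⟨h6, -, -, h7⟩ := pt_eq_inr h5.symm
      omega
    · obtain ⟨h6, -, -, h7⟩ := pt_eq_inr h5.symm
      omega
  have hq : pt m q.1 (q.2 : ℕ) = Sum.inr q := by
    rw [pt_inner q.1 h0 q.2.2]
  rw [← hq] at hy'
  rcases SB_nbr_inner h0 q.2.2 hy' with ⟨-, h⟩ | ⟨-, h⟩
  · rw [h]
    simp
  · rw [h]
    simp

/-- the thread of the subdivision from a vertex of `V`, in its direction -/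
theorem Sd_dir {V : Type} {m : ℕ} (hm : 1 ≤ m) {G : SimpleGraph V} {u : V} {y : SV V m}
    (h : (Sd m G).Adj (Sum.inl u) y) : ∃ (w : V) (P : ℕ → SV V m), G.Adj u w ∧ P 0 = Sum.inl u ∧
      P m = Sum.inl w ∧ P 1 = y ∧
      (∀ i, 0 < i → i < m → ∀ z, (Sd m G).Adj (P i) z → z = P (i + 1) ∨ z = P (i - 1)) ∧
      ∀ i, 0 < i → i < m → ∃ q, P i = Sum.inr q := by
  obtain ⟨f, hf, ⟨h1, h2⟩ | ⟨h1, h2⟩⟩ := Sd_nbr_inl h
  · subst h1
    refine ⟨eb f, fun i => pt m f i, ?_, pt_zero _ _, pt_m hm _, h2.symm, ?_, ?_⟩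
    · change s(ea f, eb f) ∈ G.edgeSet
      rw [eab]
      exact hf
    · intro i h0 hi z hz
      rcases SB_nbr_inner h0 hi hz with ⟨-, h⟩ | ⟨-, h⟩
      · exact Or.inl h
      · exact Or.inr h
    · intro i h0 hi
      exact ⟨_, pt_inner f h0 hi⟩
  · subst h1
    refine ⟨ea f, fun i => pt m f (m - i), ?_, ?_, ?_, h2.symm, ?_, ?_⟩
    · change s(eb f, ea f) ∈ G.edgeSet
      rw [Sym2.eq_swap, eab]
      exact hf
    · simp only [Nat.sub_zero]
      exact pt_m hm _
    · simp only [Nat.sub_self]
      exact pt_zero _ _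
    · intro i h0 hi z hz
      rcases SB_nbr_inner (by omega) (by omega) hz with ⟨-, h⟩ | ⟨-, h⟩
      · right
        rw [h]
        congr 1
        omega
      · left
        rw [h]
        congr 1
    · intro i h0 hi
      exact ⟨_, pt_inner f (by omega) (by omega)⟩

theorem Sd_path {V : Type} {m : ℕ} (hm : 1 ≤ m) (G : SimpleGraph V) (v : V) (n : ℕ) :
    ∀ (u : V) (p : (Sd m G).Walk (Sum.inl u) (Sum.inl v)), p.IsPath → p.length = n →
      ∃ q : G.Walk u v, q.IsPath ∧ p.length = m * q.length ∧
        ∀ w ∈ q.support, (Sum.inl w : SV V m) ∈ p.support := by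
  induction n using Nat.strong_induction_on with
  | _ n ih =>
    intro u p hp hn
    rcases Nat.eq_zero_or_pos p.length with h0 | h0
    · have huv : (Sum.inl u : SV V m) = Sum.inl v := SimpleGraph.Walk.eq_of_length_eq_zero h0
      have huv' : u = v := Sum.inl_injective huv
      subst huv'
      refine ⟨SimpleGraph.Walk.nil, SimpleGraph.Walk.IsPath.nil, by simp [h0], ?_⟩
      intro w hw
      simp only [SimpleGraph.Walk.support_nil, List.mem_cons, List.not_mem_nil, or_false] at hw
      subst hw
      exact p.start_mem_support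
    · have hinj : ∀ i j, i ≤ p.length → j ≤ p.length → p.getVert i = p.getVert j → i = j :=
        fun i j hi hj h => hp.getVert_injOn hi hj h
      have hadj0 : (Sd m G).Adj (Sum.inl u) (p.getVert 1) := by
        have := p.adj_getVert_succ (i := 0) h0
        rwa [SimpleGraph.Walk.getVert_zero] at this
      obtain ⟨w, P, huw, hP0, hPm, hP1, hPn, hPi⟩ := Sd_dir hm hadj0
      have key : ∀ i, i ≤ m → i ≤ p.length ∧ p.getVert i = P i := by
        intro i
        induction i using Nat.strong_induction_on with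
        | _ i ih2 =>
          intro hi
          rcases Nat.lt_or_ge i 2 with h1 | h1
          · interval_cases i
            · exact ⟨Nat.zero_le _, by rw [SimpleGraph.Walk.getVert_zero, hP0]⟩
            · exact ⟨h0, hP1.symm⟩
          · obtain ⟨j, rfl⟩ : ∃ j, i = j + 1 := ⟨i - 1, by omega⟩
            obtain ⟨h2, h3⟩ := ih2 j (by omega) (by omega)
            obtain ⟨h4, h5⟩ := ih2 (j - 1) (by omega) (by omega)
            have h6 : j < p.length := by
              rcases Nat.lt_or_ge j p.length with h6 | h6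
              · exact h6
              · exfalso
                have h7 : p.getVert j = Sum.inl v := by
                  rw [show j = p.length by omega]
                  exact p.getVert_length
                obtain ⟨q, hq⟩ := hPi j (by omega) (by omega)
                rw [h3, hq] at h7
                exact absurd h7 (by simp)
            refine ⟨h6, ?_⟩
            have h7 := p.adj_getVert_succ h6
            rw [h3] at h7
            rcases hPn j (by omega) (by omega) _ h7 with h8 | h8
            · exact h8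
            · exfalso
              rw [← h5] at h8
              have := hinj (j + 1) (j - 1) h6 (by omega) h8
              omega
      obtain ⟨hml, hmv⟩ := key m le_rfl
      rw [hPm] at hmv
      have hlen : (p.drop m).length = p.length - m := by
        rw [SimpleGraph.Walk.drop_length]
      have hpath : (p.drop m).IsPath := hp.drop m
      have hget : ∀ x ∈ (p.drop m).support, ∃ j, m ≤ j ∧ j ≤ p.length ∧ p.getVert j = x := by
        intro x hx
        obtain ⟨j, hj, hj'⟩ := SimpleGraph.Walk.mem_support_iff_exists_getVert.1 hx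
        rw [SimpleGraph.Walk.drop_getVert] at hj
        exact ⟨m + j, by omega, by omega, hj⟩
      obtain ⟨p', hp'⟩ : ∃ p' : (Sd m G).Walk (Sum.inl w) (Sum.inl v),
          p' = (p.drop m).copy hmv rfl := ⟨_, rfl⟩
      have hp'p : p'.IsPath := by
        rw [hp', SimpleGraph.Walk.isPath_copy]
        exact hpath
      have hp'l : p'.length = p.length - m := by
        rw [hp', SimpleGraph.Walk.length_copy, hlen]
      have hp's : p'.support = (p.drop m).support := by
        rw [hp', SimpleGraph.Walk.support_copy]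
      obtain ⟨q, hq, hql, hqs⟩ := ih p'.length (by omega) w p' hp'p rfl
      refine ⟨SimpleGraph.Walk.cons huw q, ?_, ?_, ?_⟩
      · rw [SimpleGraph.Walk.cons_isPath_iff]
        refine ⟨hq, fun h => ?_⟩
        have h1 := hqs u h
        rw [hp's] at h1
        obtain ⟨j, h2, h3, h4⟩ := hget _ h1
        have h5 := hinj j 0 h3 (Nat.zero_le _) (by rw [h4, SimpleGraph.Walk.getVert_zero])
        omega
      · rw [SimpleGraph.Walk.length_cons, Nat.mul_succ, ← hql, hp'l]
        omega
      · intro x hx
        rw [SimpleGraph.Walk.support_cons, List.mem_cons] at hx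
        rcases hx with hx | hx
        · rw [hx]
          exact p.start_mem_support
        · have h1 := hqs x hx
          rw [hp's] at h1
          obtain ⟨j, h2, h3, h4⟩ := hget _ h1
          rw [← h4]
          exact p.getVert_mem_support j

theorem s4 {V : Type} [Finite V] (m : ℕ) (hm : 1 ≤ m) (G : SimpleGraph V) (r W : ℕ)
    (h : ThrLen G r W) : ThrLen (Sd m G) (m * r) (m * W) := by
  intro x y p hp hxy hx hy hin
  rcases x with u | q
  swap
  · have := deg_inr G q
    omega
  rcases y with v | q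
  swap
  · have := deg_inr G q
    omega
  obtain ⟨q, hq, hql, hqs⟩ := Sd_path hm G v p.length u p hp rfl
  rw [deg_inl hm] at hx hy
  obtain ⟨h1, h2⟩ := h u v q hq (fun h => hxy (by rw [h])) hx hy (by
    intro x hx h1 h2
    have h3 := hin (Sum.inl x) (hqs x hx) (fun h => h1 (Sum.inl_injective h))
      (fun h => h2 (Sum.inl_injective h))
    rwa [deg_inl hm] at h3)
  rw [hql]
  exact ⟨Nat.mul_le_mul_left _ h1, Nat.mul_le_mul_left _ h2⟩

end Pool.Agent.Helper23.HM
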