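import Pool.Agent.Helper23.HM.S2
import Pool.Agent.Helper23.HM.S4
import Pool.Agent.Helper43.HM.S1
import Pool.Agent.Helper43.HM.S3

/-!
# HM: m-planar-critical graphs from 1-planar-critical graphs, by subdivision
-/

set_option autoImplicit false

open Set
open Pool.Agent.Helper83.OP Pool.Agent.Helper95.UP

namespace Pool.Agent.Helper23.HM

/-- the `m`-subdivision of an `m`-planar-critical graph is 1-planar-critical -/
theorem Sd_crit {V : Type} [Finite V] {m : ℕ} (hm : 1 ≤ m) {G : SimpleGraph V} (h1 : ¬ KPl m G)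
    (hcrit : ∀ e ∈ G.edgeSet, KPl m (G.deleteEdges {e})) :
    ¬ KPl 1 (Sd m G) ∧ ∀ e ∈ (Sd m G).edgeSet, KPl 1 ((Sd m G).deleteEdges {e}) := by
  constructor
  · intro h
    apply h1
    have := Pool.Agent.Helper43.HM.s1 m 1 hm G h
    rwa [Nat.one_mul] at this
  · intro e he
    obtain ⟨f, t, hf, ht, rfl⟩ := Sd_edge.1 he
    exact Pool.Agent.Helper43.HM.s3 m hm G f hf t ht (s2 m hm _ (hcrit f hf))

/-- from 1-planar-critical graphs to `m`-planar-critical graphs -/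
theorem main_m (hmain : ∃ K : ℕ → ℕ, ∀ (C r : ℕ) (V : Type) [Fintype V] (G : SimpleGraph V), 1 ≤ r →
      ¬ KPl 1 G → (∀ e ∈ G.edgeSet, KPl 1 (G.deleteEdges {e})) → ThrLen G r (C * r) →
      KPl (K C) G) :
    ∃ K : ℕ → ℕ, ∀ (C m r : ℕ) (V : Type) [Fintype V] (G : SimpleGraph V), 1 ≤ m → 1 ≤ r →
      ¬ KPl m G → (∀ e ∈ G.edgeSet, KPl m (G.deleteEdges {e})) → ThrLen G r (C * r) →
      KPl (K C * m) G := by
  classical
  obtain ⟨K, hK⟩ := hmain
  refine ⟨K, fun C m r V _ G hm hr h1 hcrit hthr => Pool.Agent.Helper43.HM.s1 m (K C) hm G ?_⟩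
  obtain ⟨h2, h3⟩ := Sd_crit hm h1 hcrit
  refine hK C (m * r) (SV V m) (Sd m G) (Nat.mul_pos hm hr) h2 h3 ?_
  have := s4 m hm G r (C * r) hthr
  rwa [show m * (C * r) = C * (m * r) by ring] at this

end Pool.Agent.Helper23.HM
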