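import Pool.Agent.Helper23.HM.Defs
import Pool.Agent.Helper83.OP.Planarize
import Pool.Agent.Helper83.LN.Defs

/-!
# HM: the planarisation of a drawing with at most `m` crossings on every edge
-/

set_option autoImplicit false

open Set
open Pool.Agent.Helper83.OP Pool.Agent.Helper83.LN

namespace Pool.Agent.Helper23.HM

/-- enumeration of a finite subset of an interval -/
theorem pm_enum (α : ℝ) (B : Finset ℝ) : ∀ β : ℝ, α < β → (∀ x ∈ B, α < x ∧ x < β) →
    ∃ (n : ℕ) (t : ℕ → ℝ), 1 ≤ n ∧ t 0 = α ∧ t n = β ∧ (∀ i < n, t i < t (i + 1)) ∧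
      (∀ i, 0 < i → i < n → t i ∈ B) ∧ ∀ s ∈ B, ∃ i, 0 < i ∧ i < n ∧ t i = s := by
  classical
  induction B using Finset.induction_on_max with
  | empty =>
    intro β hβ _
    refine ⟨1, fun i => if i = 0 then α else β, le_rfl, by simp, by simp, ?_, ?_, ?_⟩
    · intro i hi
      have h0 : i = 0 := by omega
      subst h0
      simpa using hβ
    · intro i h1 h2
      omega
    · intro s hs
      exact absurd hs (by simp)
  | insert a B hmax ih =>
    intro β hβ hB
    have ha := hB a (Finset.mem_insert_self _ _)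
    obtain ⟨n, t, hn, h0, h1, h2, h3, h4⟩ := ih a ha.1
      (fun x hx => ⟨(hB x (Finset.mem_insert_of_mem hx)).1, hmax x hx⟩)
    refine ⟨n + 1, fun i => if i ≤ n then t i else β, by omega, ?_, ?_, ?_, ?_, ?_⟩
    · simp only
      rw [if_pos (Nat.zero_le _), h0]
    · simp only
      rw [if_neg (by omega)]
    · intro i hi
      simp only
      rw [if_pos (by omega)]
      rcases Nat.lt_or_ge i n with h5 | h5
      · rw [if_pos (by omega)]
        exact h2 i h5
      · have h6 : i = n := by omega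
        subst h6
        rw [if_neg (by omega), h1]
        exact ha.2
    · intro i h5 h6
      simp only
      rw [if_pos (by omega)]
      rcases Nat.lt_or_ge i n with h7 | h7
      · exact Finset.mem_insert_of_mem (h3 i h5 h7)
      · have h8 : i = n := by omega
        subst h8
        rw [h1]
        exact Finset.mem_insert_self _ _
    · intro s hs
      rcases Finset.mem_insert.1 hs with h5 | h5
      · refine ⟨n, by omega, by omega, ?_⟩
        simp only
        rw [if_pos le_rfl, h1, h5]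
      · obtain ⟨i, h6, h7, h8⟩ := h4 s h5
        refine ⟨i, h6, by omega, ?_⟩
        simp only
        rw [if_pos (by omega), h8]

/-- the curves can be oriented -/
theorem pm_orient {V : Type} (H : SimpleGraph V) (m : ℕ) (h : KPl m H) :
    ∃ (pos : V → ℝ × ℝ) (γ : Sym2 V → ℝ → ℝ × ℝ), IsDrawing H pos γ ∧
      (∀ e ∈ H.edgeSet, (crossSet H γ e).encard ≤ (m : ℕ∞)) ∧
      ∀ f ∈ H.edgeSet, γ f 0 = pos (ea f) ∧ γ f 1 = pos (eb f) := by
  classical
  obtain ⟨pos, γ, hd, hc⟩ := h
  set δ : Sym2 V → ℝ → ℝ × ℝ := fun f => if γ f 0 = pos (ea f) then γ f else fun t => γ f (1 - t)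
    with hδ
  have hpos : ∀ f, γ f 0 = pos (ea f) → δ f = γ f := by
    intro f hf
    rw [hδ]
    simp only
    rw [if_pos hf]
  have hneg : ∀ f, ¬ γ f 0 = pos (ea f) → δ f = fun t => γ f (1 - t) := by
    intro f hf
    rw [hδ]
    simp only
    rw [if_neg hf]
  have him : ∀ f, δ f '' Ioo 0 1 = γ f '' Ioo 0 1 := by
    intro f
    by_cases hf : γ f 0 = pos (ea f)
    · rw [hpos f hf]
    · rw [hneg f hf]
      apply Subset.antisymm
      · rintro _ ⟨t, ht, rfl⟩
        exact ⟨1 - t, ⟨by linarith [ht.2], by linarith [ht.1]⟩, rfl⟩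
      · rintro _ ⟨t, ht, rfl⟩
        refine ⟨1 - t, ⟨by linarith [ht.2], by linarith [ht.1]⟩, ?_⟩
        simp
  have hends : ∀ f ∈ H.edgeSet, (γ f 0 = pos (ea f) ∧ γ f 1 = pos (eb f)) ∨
      (γ f 0 = pos (eb f) ∧ γ f 1 = pos (ea f)) := by
    intro f hf
    have h1 : s(ea f, eb f) ∈ H.edgeSet := by rw [eab]; exact hf
    have := hd.ends (ea f) (eb f) h1
    rwa [eab] at this
  have hor : ∀ f ∈ H.edgeSet, δ f 0 = pos (ea f) ∧ δ f 1 = pos (eb f) := by
    intro f hf
    by_cases h0 : γ f 0 = pos (ea f)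
    · rw [hpos f h0]
      rcases hends f hf with h | h
      · exact h
      · exfalso
        have := hd.pos_inj (h0.symm.trans h.1)
        exact ea_ne_eb (not_diag hf) this
    · rw [hneg f h0]
      simp only [sub_zero, sub_self]
      rcases hends f hf with h | h
      · exact absurd h.1 h0
      · exact ⟨h.2, h.1⟩
  refine ⟨pos, δ, ⟨hd.pos_inj, ?_, ?_, ?_, ?_⟩, ?_, hor⟩
  · intro u v huv
    have h1 := hor s(u, v) huv
    have h2 := eab s(u, v)
    rcases Sym2.eq_iff.1 h2 with ⟨h3, h4⟩ | ⟨h3, h4⟩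
    · rw [h3, h4] at h1
      exact Or.inl h1
    · rw [h3, h4] at h1
      exact Or.inr h1
  · intro e he
    by_cases hf : γ e 0 = pos (ea e)
    · rw [hpos e hf]
      exact hd.cont e he
    · rw [hneg e hf]
      refine (hd.cont e he).comp (by fun_prop) ?_
      intro t ht
      exact ⟨by linarith [ht.2], by linarith [ht.1]⟩
  · intro e he
    by_cases hf : γ e 0 = pos (ea e)
    · rw [hpos e hf]
      exact hd.inj e he
    · rw [hneg e hf]
      intro s hs t ht hst
      have := hd.inj e he (x₁ := 1 - s) (x₂ := 1 - t) ⟨by linarith [hs.2], by linarith [hs.1]⟩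
        ⟨by linarith [ht.2], by linarith [ht.1]⟩ hst
      linarith
  · intro e he t ht w hw
    have h1 : pos w ∈ δ e '' Ioo 0 1 := ⟨t, ht, hw⟩
    rw [him] at h1
    obtain ⟨s, hs, hs'⟩ := h1
    exact hd.avoid e he s hs w hs'
  · intro e he
    have h1 : crossSet H δ e = crossSet H γ e := by
      unfold crossSet
      ext q
      simp only [mem_ofPred_eq]
      rw [him, him]
    rw [h1]
    exact hc e he

/-- the planarisation of a drawing with at most `m` crossings on every edge -/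
theorem planarise_m {V : Type} [Finite V] (m : ℕ) (H : SimpleGraph V) (h : KPl m H)
    (hne : H.edgeSet.Nonempty) :
    ∃ (J I : Type) (_ : Finite J) (_ : Finite I) (_ : Nonempty I) (src tgt : I → J)
      (_ : PG J I src tgt) (vn : V → J) (R : H.edgeSet → Rt J I src tgt),
      (∀ i, src i ≠ tgt i) ∧ Function.Injective vn ∧ (∃ j, j ∉ range vn) ∧
      (∀ f, (R f).From (vn (ea (f : Sym2 V))) (vn (eb (f : Sym2 V)))) ∧
      (∀ f, ∀ t ≤ (R f).len, (R f).nd t ∈ range vn → t = 0 ∨ t = (R f).len) ∧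
      ∀ f, {q : H.edgeSet × J | q.1 ≠ f ∧ q.2 ∈ common (R f) (R q.1) \ range vn}.encard ≤
        (m : ℕ∞) := by
  classical
  obtain ⟨pos, γ, hd, hc, hor⟩ := pm_orient H m h
  -- break points
  have hBfin : ∀ f : H.edgeSet, {t : ℝ | t ∈ Ioo (0 : ℝ) 1 ∧ (t = 1 / 2 ∨ ∃ f' ∈ H.edgeSet,
      f' ≠ f ∧ γ f t ∈ γ f' '' Ioo (0 : ℝ) 1)}.Finite := by
    intro f
    have h1 : {t : ℝ | t ∈ Ioo (0 : ℝ) 1 ∧ ∃ f' ∈ H.edgeSet,
        f' ≠ f ∧ γ f t ∈ γ f' '' Ioo (0 : ℝ) 1}.Finite := by
      have hex : ∀ t : ℝ, ∃ f' : Sym2 V, (∃ f' ∈ H.edgeSet,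
          f' ≠ f ∧ γ f t ∈ γ f' '' Ioo (0 : ℝ) 1) → f' ∈ H.edgeSet ∧
          f' ≠ f ∧ γ f t ∈ γ f' '' Ioo (0 : ℝ) 1 := by
        intro t
        by_cases h : ∃ f' ∈ H.edgeSet, f' ≠ f ∧ γ f t ∈ γ f' '' Ioo (0 : ℝ) 1
        · obtain ⟨f', h2⟩ := h
          exact ⟨f', fun _ => h2⟩
        · exact ⟨f, fun h' => absurd h' h⟩
      choose g hg using hex
      have hfin : (crossSet H γ f).Finite := Set.finite_of_encard_le_coe (hc f f.2)
      refine Set.Finite.of_injOn (f := fun t => (g t, γ f t)) (t := crossSet H γ f) ?_ ?_ hfin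
      · rintro t ⟨ht, h2⟩
        obtain ⟨h3, h4, h5⟩ := hg t h2
        exact ⟨h3, h4, ⟨t, ht, rfl⟩, h5⟩
      · rintro t ⟨ht, -⟩ t' ⟨ht', -⟩ h2
        exact hd.inj f f.2 ⟨ht.1.le, ht.2.le⟩ ⟨ht'.1.le, ht'.2.le⟩ (Prod.ext_iff.1 h2).2
    refine (h1.union (Set.finite_singleton (1 / 2 : ℝ))).subset ?_
    rintro t ⟨ht, h2 | h2⟩
    · exact Or.inr h2
    · exact Or.inl ⟨ht, h2⟩
  have henum := fun f : H.edgeSet => pm_enum 0 (hBfin f).toFinset 1 zero_lt_one (by
    intro x hx
    rw [Set.Finite.mem_toFinset] at hx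
    exact hx.1)
  choose n t hn ht0 ht1 htm htB htB' using henum
  have hmono : ∀ f i j, i < j → j ≤ n f → t f i < t f j := by
    intro f i j hij
    induction j with
    | zero => omega
    | succ j ih =>
      intro hj
      rcases Nat.lt_succ_iff_lt_or_eq.mp hij with h1 | h1
      · exact (ih h1 (by omega)).trans (htm f j (by omega))
      · subst h1
        exact htm f i (by omega)
  have htinj : ∀ f i j, i ≤ n f → j ≤ n f → t f i = t f j → i = j := by
    intro f i j hi hj h
    rcases lt_trichotomy i j with h1 | h1 | h1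
    · exact absurd h (hmono f i j h1 hj).ne
    · exact h1
    · exact absurd h.symm (hmono f j i h1 hi).ne
  have htle : ∀ f i j, i ≤ n f → j ≤ n f → t f i ≤ t f j → i ≤ j := by
    intro f i j hi hj h
    by_contra hcon
    push Not at hcon
    exact absurd h (not_le.2 (hmono f j i hcon hi))
  have htIcc : ∀ f i, i ≤ n f → t f i ∈ Icc (0 : ℝ) 1 := by
    intro f i hi
    constructor
    · rcases Nat.eq_zero_or_pos i with rfl | h
      · exact (ht0 f).ge
      · rw [← ht0 f]
        exact (hmono f 0 i h hi).le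
    · rcases Nat.lt_or_ge i (n f) with h | h
      · rw [← ht1 f]
        exact (hmono f i _ h le_rfl).le
      · have : i = n f := by omega
        subst this
        exact (ht1 f).le
  have htIoo : ∀ f i, 0 < i → i < n f → t f i ∈ Ioo (0 : ℝ) 1 := by
    intro f i h0 h1
    constructor
    · rw [← ht0 f]
      exact hmono f 0 i h0 h1.le
    · rw [← ht1 f]
      exact hmono f i _ h1 le_rfl
  -- common points of two edges are break points
  have hcommon : ∀ f f' : H.edgeSet, f ≠ f' → ∀ s ∈ Icc (0 : ℝ) 1, ∀ s' ∈ Icc (0 : ℝ) 1,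
      γ f s = γ f' s' → ∃ k ≤ n f, s = t f k := by
    intro f f' hff s hs s' hs' hss
    by_cases h0 : s = 0
    · exact ⟨0, Nat.zero_le _, by rw [h0, ht0]⟩
    by_cases h2 : s = 1
    · exact ⟨n f, le_rfl, by rw [h2, ht1]⟩
    have hsI : s ∈ Ioo (0 : ℝ) 1 := ⟨lt_of_le_of_ne hs.1 (Ne.symm h0), lt_of_le_of_ne hs.2 h2⟩
    have hsI' : s' ∈ Ioo (0 : ℝ) 1 := by
      refine ⟨lt_of_le_of_ne hs'.1 fun h3 => ?_, lt_of_le_of_ne hs'.2 fun h3 => ?_⟩
      · subst h3
        exact hd.avoid f f.2 s hsI _ (hss.trans (hor f' f'.2).1)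
      · subst h3
        exact hd.avoid f f.2 s hsI _ (hss.trans (hor f' f'.2).2)
    obtain ⟨i, h3, h4, h5⟩ := htB' f s (by
      rw [Set.Finite.mem_toFinset]
      refine ⟨hsI, Or.inr ⟨f', f'.2, fun h3 => hff (Subtype.ext h3.symm), ?_⟩⟩
      exact ⟨s', hsI', hss.symm⟩)
    exact ⟨i, h4.le, h5.symm⟩
  -- the nodes
  let N : Set (ℝ × ℝ) := {p | (∃ v, p = pos v) ∨ ∃ (f : H.edgeSet) (i : ℕ), 0 < i ∧ i < n f ∧
    p = γ f (t f i)}
  have hNfin : N.Finite := by
    have h4 : N ⊆ Set.range pos ∪ ⋃ f : H.edgeSet, (fun i => γ f (t f i)) '' Iio (n f) := by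
      rintro p (⟨v, rfl⟩ | ⟨f, i, -, hi, rfl⟩)
      · exact Or.inl ⟨v, rfl⟩
      · exact Or.inr (mem_iUnion.2 ⟨f, i, hi, rfl⟩)
    exact ((Set.finite_range _).union (Set.finite_iUnion fun f =>
      (Set.finite_Iio _).image _)).subset h4
  have hNmem : ∀ f i, i ≤ n f → γ f (t f i) ∈ N := by
    intro f i hi
    by_cases h0 : i = 0
    · subst h0
      rw [ht0, (hor f f.2).1]
      exact Or.inl ⟨_, rfl⟩
    by_cases h1 : i = n f
    · rw [h1, ht1, (hor f f.2).2]
      exact Or.inl ⟨_, rfl⟩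
    · exact Or.inr ⟨f, i, Nat.pos_of_ne_zero h0, lt_of_le_of_ne hi h1, rfl⟩
  have hspec : ∀ f : H.edgeSet, ∀ s ∈ Icc (0 : ℝ) 1, γ f s ∈ N → ∃ k ≤ n f, s = t f k := by
    rintro f s hs (⟨v, hv⟩ | ⟨f', i, h0, h1, h2⟩)
    · by_contra hcon
      push Not at hcon
      have h0 : s ≠ 0 := by
        have := hcon 0 (Nat.zero_le _)
        rwa [ht0] at this
      have h1 : s ≠ 1 := by
        have := hcon (n f) le_rfl
        rwa [ht1] at this
      exact hd.avoid f f.2 s ⟨lt_of_le_of_ne hs.1 (Ne.symm h0), lt_of_le_of_ne hs.2 h1⟩ v hv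
    · by_cases hff : f = f'
      · subst hff
        exact ⟨i, h1.le, hd.inj f f.2 hs (htIcc f i h1.le) h2⟩
      · exact hcommon f f' hff s hs (t f' i) (htIcc f' i h1.le) h2
  let J : Type := N
  have hJ : Finite J := hNfin.to_subtype
  let I : Type := (f : H.edgeSet) × Fin (n f)
  have hI : Finite I := inferInstance
  obtain ⟨f0, hf0⟩ := hne
  have hIn : Nonempty I := ⟨⟨⟨f0, hf0⟩, ⟨0, hn _⟩⟩⟩
  let nd : H.edgeSet → ℕ → J := fun f i =>
    ⟨γ f (t f (min i (n f))), hNmem f _ (min_le_right _ _)⟩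
  have hnd : ∀ f i, i ≤ n f → ((nd f i : J) : ℝ × ℝ) = γ f (t f i) := by
    intro f i hi
    change γ f (t f (min i (n f))) = _
    rw [min_eq_left hi]
  have hndinj : ∀ f i j, i ≤ n f → j ≤ n f → nd f i = nd f j → i = j := by
    intro f i j hi hj h
    have h1 := congrArg Subtype.val h
    rw [hnd f i hi, hnd f j hj] at h1
    exact htinj f i j hi hj (hd.inj f f.2 (htIcc f i hi) (htIcc f j hj) h1)
  let src : I → J := fun i => nd i.1 i.2
  let tgt : I → J := fun i => nd i.1 (i.2 + 1)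
  have hsrc : ∀ i : I, ((src i : J) : ℝ × ℝ) = γ i.1 (t i.1 i.2) := fun i =>
    hnd i.1 i.2 i.2.2.le
  have htgt : ∀ i : I, ((tgt i : J) : ℝ × ℝ) = γ i.1 (t i.1 (i.2 + 1)) := fun i =>
    hnd i.1 (i.2 + 1) i.2.2
  -- break points on a piece are its ends
  have hpiece : ∀ i : I, ∀ k ≤ n i.1, t i.1 k ∈ Icc (t i.1 i.2) (t i.1 (i.2 + 1)) →
      k = i.2 ∨ k = i.2 + 1 := by
    intro i k hk hk'
    have h1 := htle i.1 _ _ i.2.2.le hk hk'.1
    have h2 := htle i.1 _ _ hk i.2.2 hk'.2
    omega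
  have hsub : ∀ i : I, Icc (t i.1 i.2) (t i.1 (i.2 + 1)) ⊆ Icc (0 : ℝ) 1 := fun i =>
    Icc_subset_Icc (htIcc i.1 _ i.2.2.le).1 (htIcc i.1 _ i.2.2).2
  have hfin : ∀ i : I, ∀ s ∈ Icc (t i.1 i.2) (t i.1 (i.2 + 1)), (∃ k ≤ n i.1, s = t i.1 k) →
      (γ i.1 s = (src i : J).1 ∨ γ i.1 s = (tgt i : J).1) := by
    rintro i s hs ⟨k, hk, rfl⟩
    rcases hpiece i k hk hs with h | h
    · left; rw [hsrc, h]
    · right; rw [htgt, h]
  let P : PG J I src tgt :=
    { pos := fun j => (j : J).1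
      pos_inj := Subtype.val_injective
      arc := fun i => γ i.1 '' Icc (t i.1 i.2) (t i.1 (i.2 + 1))
      isArc := by
        intro i
        have h3 := Planarize.isArc_sub (γ i.1) (hd.cont _ i.1.2) (hd.inj _ i.1.2) (t i.1 i.2)
          (t i.1 (i.2 + 1)) (htIcc i.1 _ i.2.2.le).1 (htm i.1 i.2 i.2.2) (htIcc i.1 _ i.2.2).2
        rw [← hsrc, ← htgt] at h3
        exact h3
      nodes := by
        rintro i j ⟨s, hs, hsj⟩
        have h1 := hspec i.1 s (hsub i hs) (by rw [hsj]; exact j.2)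
        rcases hfin i s hs h1 with h | h
        · left
          apply Subtype.ext
          rw [← h, hsj]
        · right
          apply Subtype.ext
          rw [← h, hsj]
      disj := by
        rintro i i' hne p ⟨s, hs, hsp⟩ ⟨s', hs', hsp'⟩
        by_cases hff : i.1 = i'.1
        · have key : (∃ k ≤ n i.1, s = t i.1 k) ∧ (∃ k ≤ n i'.1, s' = t i'.1 k) := by
            obtain ⟨f, k⟩ := i
            obtain ⟨f', k'⟩ := i'
            simp only at hff
            subst hff
            simp only at hs hs' hsp hsp' ⊢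
            have hss : s = s' := hd.inj f f.2 (hsub ⟨f, k⟩ hs) (hsub ⟨f, k'⟩ hs')
              (hsp.trans hsp'.symm)
            subst hss
            have hkk : k ≠ k' := fun h => hne (by rw [h])
            have hkk' : (k : ℕ) ≠ k' := fun h => hkk (Fin.ext h)
            have hmn : ∀ a b, a ≤ b → b ≤ n f → t f a ≤ t f b := by
              intro a b hab hb
              rcases lt_or_eq_of_le hab with h | h
              · exact (hmono f a b h hb).le
              · rw [h]
            rcases lt_or_gt_of_ne hkk' with h | h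
            · have h5 := hmn (k + 1) k' h k'.2.le
              have h6 : s = t f k' := le_antisymm (hs.2.trans h5) hs'.1
              exact ⟨⟨k', k'.2.le, h6⟩, ⟨k', k'.2.le, h6⟩⟩
            · have h5 := hmn (k' + 1) k h k.2.le
              have h6 : s = t f k := le_antisymm (hs'.2.trans h5) hs.1
              exact ⟨⟨k, k.2.le, h6⟩, ⟨k, k.2.le, h6⟩⟩
          refine ⟨?_, ?_⟩
          · rw [← hsp]
            exact hfin i s hs key.1
          · rw [← hsp']
            exact hfin i' s' hs' key.2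
        · refine ⟨?_, ?_⟩
          · rw [← hsp]
            exact hfin i s hs (hcommon i.1 i'.1 hff s (hsub i hs) s' (hsub i' hs')
              (hsp.trans hsp'.symm))
          · rw [← hsp']
            exact hfin i' s' hs' (hcommon i'.1 i.1 (Ne.symm hff) s' (hsub i' hs') s (hsub i hs)
              (hsp'.trans hsp.symm)) }
  let vn : V → J := fun v => ⟨pos v, Or.inl ⟨v, rfl⟩⟩
  let R : H.edgeSet → Rt J I src tgt := fun f =>
    { len := n f
      nd := nd f
      ar := fun i => ⟨f, ⟨min i (n f - 1), by have := hn f; omega⟩⟩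
      dir := fun _ => false
      fst := by
        intro i hi
        change nd f (min i (n f - 1)) = nd f i
        rw [min_eq_left (by omega)]
      snd := by
        intro i hi
        change nd f (min i (n f - 1) + 1) = nd f (i + 1)
        rw [min_eq_left (by omega)]
      inj := fun i j hi hj h => hndinj f i j hi hj h }
  have hbr : ∀ f i, 0 < i → i < n f → nd f i ∉ range vn := by
    rintro f i h0 h1 ⟨v, hv⟩
    have h2 := congrArg Subtype.val hv
    rw [hnd f i h1.le] at h2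
    exact hd.avoid f f.2 _ (htIoo f i h0 h1) v h2.symm
  refine ⟨J, I, hJ, hI, hIn, src, tgt, P, vn, R, ?_, ?_, ?_, ?_, ?_, ?_⟩
  · intro i h1
    have := hndinj i.1 i.2 (i.2 + 1) i.2.2.le i.2.2 h1
    omega
  · intro v w h1
    exact hd.pos_inj (congrArg Subtype.val h1)
  · obtain ⟨i, h1, h2, h3⟩ := htB' ⟨f0, hf0⟩ (1 / 2) (by
      rw [Set.Finite.mem_toFinset]
      exact ⟨by norm_num, Or.inl rfl⟩)
    exact ⟨_, hbr ⟨f0, hf0⟩ i h1 h2⟩
  · intro f
    constructor
    · apply Subtype.ext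
      change ((nd f 0 : J) : ℝ × ℝ) = pos (ea (f : Sym2 V))
      rw [hnd f 0 (Nat.zero_le _), ht0, (hor f f.2).1]
    · apply Subtype.ext
      change ((nd f (n f) : J) : ℝ × ℝ) = pos (eb (f : Sym2 V))
      rw [hnd f (n f) le_rfl, ht1, (hor f f.2).2]
  · intro f i hi h1
    by_contra hcon
    push Not at hcon
    exact hbr f i (Nat.pos_of_ne_zero hcon.1) (lt_of_le_of_ne hi hcon.2) h1
  · intro f
    refine le_trans ?_ (hc f f.2)
    refine Set.encard_le_encard_of_injOn (f := fun q : H.edgeSet × J => ((q.1 : Sym2 V), (q.2 : ℝ × ℝ)))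
      ?_ ?_
    · rintro ⟨f', j⟩ ⟨h1, ⟨⟨i, hi, hij⟩, ⟨i', hi', hij'⟩⟩, h2⟩
      simp only at h1 h2 hij hij' hi' ⊢
      have hinner : ∀ (g : H.edgeSet) (k : ℕ), k ≤ n g → nd g k = j →
          (j : ℝ × ℝ) ∈ γ g '' Ioo (0 : ℝ) 1 := by
        intro g k hk hkj
        refine ⟨t g k, ?_, ?_⟩
        · apply htIoo g k
          · apply Nat.pos_of_ne_zero
            rintro rfl
            apply h2
            refine ⟨ea (g : Sym2 V), ?_⟩
            rw [← hkj]
            apply Subtype.ext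
            rw [hnd g 0 hk, ht0, (hor g g.2).1]
          · apply lt_of_le_of_ne hk
            rintro rfl
            apply h2
            refine ⟨eb (g : Sym2 V), ?_⟩
            rw [← hkj]
            apply Subtype.ext
            rw [hnd g _ hk, ht1, (hor g g.2).2]
        · rw [← hnd g k hk, hkj]
      exact ⟨f'.2, fun h3 => h1 (Subtype.ext h3), hinner f i hi hij, hinner f' i' hi' hij'⟩
    · rintro ⟨f', j⟩ _ ⟨f'', j'⟩ _ h1
      obtain ⟨h2, h3⟩ := Prod.ext_iff.1 h1
      exact Prod.ext (Subtype.ext h2) (Subtype.ext h3)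

end Pool.Agent.Helper23.HM
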