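import Pool.Agent.Helper23.HM.Pm
import Pool.Agent.Helper83.OP.Mono
import Pool.Agent.Helper83.OP.LayoutEx
import Pool.Agent.Helper83.HR.Surg

/-!
# HM: if `H` is `m`-planar then its `m`-subdivision is 1-planar
-/

set_option autoImplicit false

open Set
open Pool.Agent.Helper83.OP Pool.Agent.Helper83.LN Pool.Agent.Helper83.HR

namespace Pool.Agent.Helper23.HM

/-- the threads of the `m`-subdivision -/
noncomputable def sdThreads {V : Type} (m : ℕ) (hm : 1 ≤ m) (H : SimpleGraph V) :
    Threads (Sd m H) H.edgeSet where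
  len := fun _ => m
  x := fun f t => pt m (f : Sym2 V) t
  pos := fun _ => hm
  inj := fun f s t hs ht h => pt_inj hm (not_diag f.2) hs ht h
  adj := fun f t ht => Sd_adj f.2 ht
  cover := by
    rintro u v ⟨f, t, -, h2, h3, h4⟩
    exact ⟨⟨f, h2⟩, t, h3, h4⟩
  uniq := by
    intro f f' t t' ht ht' h
    obtain ⟨h1, h2⟩ := pe_inj (not_diag f.2) (not_diag f'.2) ht ht' h
    exact ⟨Subtype.ext h1, h2⟩
  inner := by
    intro f t h0 h1 f' t' ht' h
    rw [pt_inner (f : Sym2 V) h0 h1] at h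
    exact Subtype.ext (pt_eq_inr h).2.2.1.symm

/-- the sum of the numbers of elements of fibres -/
theorem s2_sum {T J : Type} [Fintype T] [Finite J] (P : T → J → Prop) :
    ∑ τ : T, {j | P τ j}.ncard = {q : T × J | P q.1 q.2}.ncard := by
  classical
  have h1 : {q : T × J | P q.1 q.2}.ncard = Nat.card {q : T × J // P q.1 q.2} :=
    Nat.card_coe_set_eq _
  rw [h1, Nat.card_congr (Equiv.subtypeProdEquivSigmaSubtype P), Nat.card_sigma]
  rfl

theorem s2 {V : Type} [Finite V] (m : ℕ) (hm : 1 ≤ m) (H : SimpleGraph V) (h : KPl m H) :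
    KPl 1 (Sd m H) := by
  classical
  by_cases hne : H.edgeSet.Nonempty
  swap
  · have h1 : Sd m H = ⊥ := by
      rw [← SimpleGraph.edgeSet_eq_empty, Set.eq_empty_iff_forall_notMem]
      intro e he
      obtain ⟨f, t, hf, -, -⟩ := Sd_edge.1 he
      exact hne ⟨f, hf⟩
    rw [h1]
    exact kpl_bot 1
  obtain ⟨J, I, hJ, hI, hIn, src, tgt, P, vn, R, hst, hvn, ⟨j0, hj0⟩, hF, hin, hcount⟩ :=
    planarise_m m H h hne
  obtain ⟨L⟩ := exists_layout hst P
  obtain ⟨Gam, -, hsurg⟩ := surgeryH hst L (fun _ => 0) (range vn)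
  have : Fintype H.edgeSet := Fintype.ofFinite _
  let pl : SV V m → J := Sum.elim vn (fun _ => j0)
  refine hsurg (SV V m) H.edgeSet (Sd m H) (sdThreads m hm H) ∅ pl R ?_ ?_ ?_ ?_ 1 ?_
  · rintro (u | q) (u' | q') h1 h2
    · exact congrArg Sum.inl (hvn h2)
    · exact absurd ⟨u, h2⟩ hj0
    · exact absurd h1 hj0
    · exact absurd h1 hj0
  · intro f
    have h1 : (sdThreads m hm H).x f 0 = Sum.inl (ea (f : Sym2 V)) := pt_zero _ _
    have h2 : (sdThreads m hm H).x f ((sdThreads m hm H).len f) = Sum.inl (eb (f : Sym2 V)) :=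
      pt_m hm _
    rw [h1, h2]
    exact hF f
  · intro f hf
    exact absurd hf (by simp)
  · exact hin
  · intro f
    refine le_trans (Finset.sum_le_sum
      (g := fun f' => {j | f' ≠ f ∧ j ∈ common (R f) (R f') \ range vn}.ncard)
      (fun f' _ => ?_)) ?_
    · split_ifs with h2
      · exact Nat.zero_le _
      · unfold multH
        rw [if_neg (by simp)]
        exact Set.ncard_le_ncard (fun j h3 => ⟨h2, h3⟩) (Set.toFinite _)
    rw [s2_sum (fun f' j => f' ≠ f ∧ j ∈ common (R f) (R f') \ range vn)]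
    have h2 := hcount f
    rw [← (Set.toFinite _).cast_ncard_eq] at h2
    have h3 : ({q : H.edgeSet × J | q.1 ≠ f ∧ q.2 ∈ common (R f) (R q.1) \ range vn}).ncard ≤ m := by
      exact_mod_cast h2
    calc _ ≤ m := h3
      _ = 1 * (sdThreads m hm H).len f := (Nat.one_mul m).symm

end Pool.Agent.Helper23.HM
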